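import Pool.Agent.H31.DPD.Targets

/-!
# Row FT of the board dpd_modules: the final theorem
-/

set_option autoImplicit false

open Finset Filter Topology

namespace Pool.Agent.H69.DPD

open Pool.Agent.H31.DP Pool.Agent.H31.DPD

private theorem nonMaj_mono {K K' N d : ℕ} {P : Polynomial ℝ} (h : NonMaj K N d P)
    (hK : K' ≤ K) : NonMaj K' N d P := by
  intro q h1 h2
  obtain ⟨j, hj1, hj2, hj⟩ := h q h1 (h2.trans hK)
  exact ⟨j, hj1, hj2, fun a => le_trans (by exact_mod_cast hK) (hj a)⟩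

theorem pf_FT (hPI : P_PI) (hMJ : P_MJ) : P_FT := by
  classical
  intro d r β δ ε ρ hd hδ hε hρ
  obtain ⟨K₁, hK₁⟩ := hPI d r β δ ε (ρ / 2) hd hδ hε (by positivity)
  have h2 : ∃ K₂ : ℕ, Pair β δ → ∀ x y : ℕ, 0 < x → K₂ * x ≤ y →
      ∑ N ∈ (Finset.Icc x y).filter (fun N : ℕ => ∃ P : Polynomial ℝ, P.natDegree ≤ d ∧
        ¬ NonMaj K₁ N d P ∧ ε * N < ‖SmP β δ N P‖),
        (1 / (N : ℝ)) ≤ ρ / 2 * Real.log ((y : ℝ) / x) := by
    by_cases hp : Pair β δ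
    · obtain ⟨K₂, hK₂⟩ := hMJ d r β δ K₁ ε (ρ / 2) hp hε (by positivity)
      exact ⟨K₂, fun _ => hK₂⟩
    · exact ⟨0, fun h => absurd h hp⟩
  obtain ⟨K₂, hK₂⟩ := h2
  refine ⟨max 1 (max K₁ K₂), fun x y hx hxy => ?_⟩
  have e0 : 1 ≤ max 1 (max K₁ K₂) := le_max_left _ _
  have e1 : K₁ ≤ max 1 (max K₁ K₂) := (le_max_left _ _).trans (le_max_right _ _)
  have e2 : K₂ ≤ max 1 (max K₁ K₂) := (le_max_right _ _).trans (le_max_right _ _)
  have hxy0 : x ≤ y := by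
    have := (Nat.mul_le_mul_right x e0).trans hxy
    rwa [one_mul] at this
  have hx' : (0 : ℝ) < x := by exact_mod_cast hx
  have hlog : 0 ≤ Real.log ((y : ℝ) / x) := by
    apply Real.log_nonneg
    rw [le_div_iff₀ hx', one_mul]
    exact_mod_cast hxy0
  have h1 := hK₁ x y hx ((Nat.mul_le_mul_right x e1).trans hxy)
  set A : Finset ℕ := (Finset.Icc x y).filter (fun N : ℕ => ∃ P : Polynomial ℝ,
    P.natDegree ≤ d ∧ NonMaj K₁ N d P ∧ ε * N < ‖SmP β δ N P‖) with hA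
  set F : Finset ℕ := (Finset.Icc x y).filter (fun N : ℕ => ∃ P : Polynomial ℝ,
    P.natDegree ≤ d ∧ (Pair β δ ∨ NonMaj (max 1 (max K₁ K₂)) N d P) ∧
      ε * N < ‖SmP β δ N P‖) with hF
  by_cases hp : Pair β δ
  · have h3 := hK₂ hp x y hx ((Nat.mul_le_mul_right x e2).trans hxy)
    set B : Finset ℕ := (Finset.Icc x y).filter (fun N : ℕ => ∃ P : Polynomial ℝ,
      P.natDegree ≤ d ∧ ¬ NonMaj K₁ N d P ∧ ε * N < ‖SmP β δ N P‖) with hB
    have hsub : F ⊆ A ∪ B := by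
      intro N hN
      rw [hF, Finset.mem_filter] at hN
      obtain ⟨hN1, P, hP1, -, hP3⟩ := hN
      rw [Finset.mem_union]
      by_cases h4 : NonMaj K₁ N d P
      · left
        rw [hA, Finset.mem_filter]
        exact ⟨hN1, P, hP1, h4, hP3⟩
      · right
        rw [hB, Finset.mem_filter]
        exact ⟨hN1, P, hP1, h4, hP3⟩
    calc ∑ N ∈ F, (1 / (N : ℝ)) ≤ ∑ N ∈ A ∪ B, (1 / (N : ℝ)) :=
          Finset.sum_le_sum_of_subset_of_nonneg hsub (fun _ _ _ => by positivity)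
      _ ≤ ∑ N ∈ A ∪ B, (1 / (N : ℝ)) + ∑ N ∈ A ∩ B, (1 / (N : ℝ)) :=
          le_add_of_nonneg_right (Finset.sum_nonneg fun _ _ => by positivity)
      _ = ∑ N ∈ A, (1 / (N : ℝ)) + ∑ N ∈ B, (1 / (N : ℝ)) := Finset.sum_union_inter
      _ ≤ ρ / 2 * Real.log ((y : ℝ) / x) + ρ / 2 * Real.log ((y : ℝ) / x) := add_le_add h1 h3
      _ = ρ * Real.log ((y : ℝ) / x) := by ring
  · have hsub : F ⊆ A := by
      intro N hN
      rw [hF, Finset.mem_filter] at hN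
      obtain ⟨hN1, P, hP1, hP2, hP3⟩ := hN
      rw [hA, Finset.mem_filter]
      exact ⟨hN1, P, hP1, nonMaj_mono (hP2.resolve_left hp) e1, hP3⟩
    calc ∑ N ∈ F, (1 / (N : ℝ)) ≤ ∑ N ∈ A, (1 / (N : ℝ)) :=
          Finset.sum_le_sum_of_subset_of_nonneg hsub (fun _ _ _ => by positivity)
      _ ≤ ρ / 2 * Real.log ((y : ℝ) / x) := h1
      _ ≤ ρ * Real.log ((y : ℝ) / x) := mul_le_mul_of_nonneg_right (by linarith) hlog

end Pool.Agent.H69.DPD
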