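import Pool.Agent.H31.DPD.Targets

/-!
# Row ST of the board dpd_modules: scales of the form `i * N / J`
-/

set_option autoImplicit false

open Finset Filter Topology

namespace Pool.Agent.H69.DPD

open Pool.Agent.H31.DP Pool.Agent.H31.DPD

/-- the number of the `N` with a given quotient -/
private theorem card_fib (J i N₁ : ℕ) (hJ : 0 < J) (hi : 0 < i) (S : Finset ℕ)
    (h : ∀ N ∈ S, i * N / J = N₁) : S.card ≤ J := by
  rcases S.eq_empty_or_nonempty with rfl | hne
  · simp
  · have hm : S.min' hne ∈ S := S.min'_mem hne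
    have hsub : S ⊆ Finset.Ico (S.min' hne) (S.min' hne + J) := by
      intro N hN
      have h1 := h N hN
      have h2 := h _ hm
      rw [Finset.mem_Ico]
      refine ⟨S.min'_le N hN, ?_⟩
      by_contra hc
      rw [not_lt] at hc
      have h3 : i * S.min' hne + J ≤ i * N := by
        calc i * S.min' hne + J ≤ i * S.min' hne + i * J :=
              Nat.add_le_add_left (Nat.le_mul_of_pos_left J hi) _
          _ = i * (S.min' hne + J) := by ring
          _ ≤ i * N := Nat.mul_le_mul_left i hc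
      have h4 : i * S.min' hne / J + 1 ≤ i * N / J := by
        rw [← Nat.add_div_right _ hJ]
        exact Nat.div_le_div_right h3
      omega
    calc S.card ≤ (Finset.Ico (S.min' hne) (S.min' hne + J)).card := Finset.card_le_card hsub
      _ = J := by rw [Nat.card_Ico, Nat.add_sub_cancel_left]

theorem pf_ST : P_ST := by
  classical
  intro J B x y hJ hx
  set G : Finset ℕ := (Finset.Icc (max 1 (x / J)) y).filter (fun N : ℕ => N ∈ B) with hG
  have hJ1 : (1 : ℝ) ≤ J := by exact_mod_cast hJ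
  have hG0 : 0 ≤ ∑ N ∈ G, (1 / (N : ℝ)) := Finset.sum_nonneg fun _ _ => by positivity
  -- one value of `i`
  have hi : ∀ i ∈ Finset.Icc 1 J, ∑ N ∈ (Finset.Icc x y).filter
      (fun N : ℕ => 0 < i * N / J ∧ i * N / J ∈ B), (1 / (N : ℝ)) ≤
        J * ∑ N ∈ G, (1 / (N : ℝ)) := by
    intro i hi
    rw [Finset.mem_Icc] at hi
    have hmaps : ∀ N ∈ (Finset.Icc x y).filter
        (fun N : ℕ => 0 < i * N / J ∧ i * N / J ∈ B), i * N / J ∈ G := by
      intro N hN
      rw [Finset.mem_filter, Finset.mem_Icc] at hN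
      obtain ⟨⟨h1, h2⟩, h3, h4⟩ := hN
      rw [hG, Finset.mem_filter, Finset.mem_Icc]
      refine ⟨⟨max_le h3 ?_, ?_⟩, h4⟩
      · apply Nat.div_le_div_right
        exact h1.trans (Nat.le_mul_of_pos_left N hi.1)
      · calc i * N / J ≤ J * N / J := Nat.div_le_div_right (Nat.mul_le_mul_right N hi.2)
          _ = N := Nat.mul_div_cancel_left N hJ
          _ ≤ y := h2
    rw [← Finset.sum_fiberwise_of_maps_to hmaps, Finset.mul_sum]
    refine Finset.sum_le_sum fun N₁ hN₁ => ?_
    have hN0 : 0 < N₁ := by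
      rw [hG, Finset.mem_filter, Finset.mem_Icc] at hN₁
      have := (le_max_left 1 (x / J)).trans hN₁.1.1
      omega
    have hN0' : (0 : ℝ) < N₁ := by exact_mod_cast hN0
    set S : Finset ℕ := ((Finset.Icc x y).filter
      (fun N : ℕ => 0 < i * N / J ∧ i * N / J ∈ B)).filter (fun N => i * N / J = N₁) with hS
    have hc : S.card ≤ J := card_fib J i N₁ hJ hi.1 S fun N hN => by
      rw [hS, Finset.mem_filter] at hN
      exact hN.2
    calc ∑ N ∈ S, (1 / (N : ℝ)) ≤ ∑ _N ∈ S, (1 / (N₁ : ℝ)) := by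
          refine Finset.sum_le_sum fun N hN => ?_
          rw [hS, Finset.mem_filter] at hN
          apply one_div_le_one_div_of_le hN0'
          have h5 : N₁ ≤ N := by
            rw [← hN.2]
            calc i * N / J ≤ J * N / J := Nat.div_le_div_right (Nat.mul_le_mul_right N hi.2)
              _ = N := Nat.mul_div_cancel_left N hJ
          exact_mod_cast h5
      _ = (S.card : ℝ) * (1 / (N₁ : ℝ)) := by rw [Finset.sum_const, nsmul_eq_mul]
      _ ≤ J * (1 / (N₁ : ℝ)) :=
          mul_le_mul_of_nonneg_right (by exact_mod_cast hc) (by positivity)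
  have hswap : ∑ N ∈ (Finset.Icc x y).filter
      (fun N : ℕ => ∃ i : ℕ, i ≤ J ∧ 0 < i * N / J ∧ i * N / J ∈ B), (1 / (N : ℝ)) ≤
      ∑ i ∈ Finset.Icc 1 J, ∑ N ∈ (Finset.Icc x y).filter
        (fun N : ℕ => 0 < i * N / J ∧ i * N / J ∈ B), (1 / (N : ℝ)) := by
    have e1 : ∀ i : ℕ, ∑ N ∈ (Finset.Icc x y).filter
        (fun N : ℕ => 0 < i * N / J ∧ i * N / J ∈ B), (1 / (N : ℝ)) =
        ∑ N ∈ Finset.Icc x y, if 0 < i * N / J ∧ i * N / J ∈ B then (1 / (N : ℝ)) else 0 :=
      fun i => Finset.sum_filter _ _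
    simp only [e1]
    rw [Finset.sum_comm, Finset.sum_filter]
    refine Finset.sum_le_sum fun N _ => ?_
    have hnn : ∀ i ∈ Finset.Icc 1 J,
        0 ≤ (if 0 < i * N / J ∧ i * N / J ∈ B then (1 / (N : ℝ)) else 0) := by
      intro i _
      split_ifs
      · positivity
      · exact le_rfl
    split_ifs with h
    · obtain ⟨i, h1, h2, h3⟩ := h
      have hi0 : 1 ≤ i := by
        rcases Nat.eq_zero_or_pos i with h0 | h0
        · rw [h0, Nat.zero_mul, Nat.zero_div] at h2
          exact absurd h2 (lt_irrefl 0)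
        · exact h0
      refine le_trans ?_ (Finset.single_le_sum hnn (Finset.mem_Icc.2 ⟨hi0, h1⟩))
      rw [if_pos ⟨h2, h3⟩]
    · exact Finset.sum_nonneg hnn
  calc _ ≤ _ := hswap
    _ ≤ ∑ _i ∈ Finset.Icc 1 J, (J * ∑ N ∈ G, (1 / (N : ℝ))) := Finset.sum_le_sum hi
    _ = (J : ℝ) ^ 2 * ∑ N ∈ G, (1 / (N : ℝ)) := by
        rw [Finset.sum_const, Nat.card_Icc, Nat.add_sub_cancel, nsmul_eq_mul]
        ring
    _ ≤ 2 * (J : ℝ) ^ 2 * ∑ N ∈ G, (1 / (N : ℝ)) := by
        apply mul_le_mul_of_nonneg_right _ hG0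
        nlinarith

end Pool.Agent.H69.DPD
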